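import Mathlib
import Pool.Agent.LibTuza.Average

/-!
# Edge-disjoint cliques above the Turan threshold (Tuza's problem)

For every fixed `r ≥ 3` every graph with `n` vertices and `(r-2)/(2r-2) n^2 + k` edges contains
at least `(2/r) k - o(n^2)` pairwise edge-disjoint copies of `K_r`, with an error function that
depends only on `r` and `n`.
-/

namespace Pool.Agent.Results.MP_657a0a_co.TuzaEdgeDisjointCliques

open Finset Filter Topology

/-- `F` is an edge-disjoint family of copies of `K_r` in `G`: its members are vertex sets of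
`r`-cliques of `G`, and two different members have no two distinct vertices in common (that is,
they share no edge). -/
def EdgeDisjointCliques {V : Type*} (G : SimpleGraph V) (r : ℕ) (F : Finset (Finset V)) : Prop :=
  (∀ Q ∈ F, G.IsNClique r Q) ∧
    (∀ Q ∈ F, ∀ Q' ∈ F, Q ≠ Q' → ∀ u v, u ∈ Q → v ∈ Q → u ∈ Q' → v ∈ Q' → u = v)

/-- `nu G r` is the largest size of an edge-disjoint family of copies of `K_r` in `G`. -/
noncomputable def nu {V : Type*} (G : SimpleGraph V) (r : ℕ) : ℕ :=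
  sSup {m : ℕ | ∃ F : Finset (Finset V), EdgeDisjointCliques G r F ∧ F.card = m}

theorem card_le_nu {V : Type*} [Finite V] (G : SimpleGraph V) (r : ℕ) (F : Finset (Finset V))
    (hF : EdgeDisjointCliques G r F) : F.card ≤ nu G r := by
  classical
  have := Fintype.ofFinite V
  refine le_csSup ?_ ⟨F, hF, rfl⟩
  refine ⟨Fintype.card (Finset V), ?_⟩
  rintro m ⟨F', _, rfl⟩
  exact Finset.card_le_univ F'

open Pool.Agent.LibTuza in
theorem ncard_edges {V : Type*} [Fintype V] [DecidableEq V] (G : SimpleGraph V)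
    [DecidableRel G.Adj] :
    (((E2 (Finset.univ : Finset V)).filter (fun e => e ∈ G.edgeSet)).card : ℝ) =
      (G.edgeSet.ncard : ℝ) := by
  congr 1
  rw [← Set.ncard_coe_finset]
  congr 1
  ext e
  simp only [Finset.coe_filter, Set.mem_ofPred_eq]
  constructor
  · exact fun h => h.2
  · intro h
    refine ⟨?_, h⟩
    induction e using Sym2.ind with
    | _ a b =>
      rw [mem_E2]
      rw [SimpleGraph.mem_edgeSet] at h
      exact ⟨Finset.mem_univ _, Finset.mem_univ _, h.ne⟩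

open Pool.Agent.LibTuza in
theorem asymp (r : ℕ) (hr : 3 ≤ r) (δ : ℝ) (hδ : 0 < δ) :
    ∃ n0 : ℕ, ∀ n : ℕ, n0 ≤ n → ∀ G : SimpleGraph (Fin n),
      2 / (r : ℝ) * ((G.edgeSet.ncard : ℝ) - ((r : ℝ) - 2) / (2 * (r : ℝ) - 2) * (n : ℝ) ^ 2) -
        δ * (n : ℝ) ^ 2 ≤ (nu G r : ℝ) := by
  classical
  have hr3 : (3 : ℝ) ≤ r := by exact_mod_cast hr
  obtain ⟨η, hη, hnib⟩ := nibble (r.choose 2) (Nat.choose_pos (by omega)) (δ / 2) (by linarith)
  obtain ⟨N0, hN0⟩ := exists_nat_gt (2 / δ + 2)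
  set N := max r N0 with hNdef
  have hNr : r ≤ N := le_max_left _ _
  have hNlarge : 2 / δ + 2 < (N : ℝ) := by
    refine hN0.trans_le ?_
    exact_mod_cast le_max_right _ _
  have hN3 : (3 : ℝ) ≤ N := by exact_mod_cast hr.trans hNr
  obtain ⟨n1, hn1⟩ := exists_nat_gt (((N : ℝ) - 2) / η + 2)
  refine ⟨max N n1, ?_⟩
  intro n hn G
  have hnN : N ≤ n := (le_max_left _ _).trans hn
  have hnn1 : n1 ≤ n := (le_max_right _ _).trans hn
  have hnN' : (N : ℝ) ≤ n := by exact_mod_cast hnN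
  have hn3 : (3 : ℝ) ≤ n := hN3.trans hnN'
  obtain ⟨y, hy0, hyc, hyd, hyco, hyt⟩ := spread_packing G r hr N hNr
    (by rw [Fintype.card_fin]; exact hnN)
  rw [Fintype.card_fin] at hyco hyt
  rw [ncard_edges] at hyt
  -- transfer to the subtype of `r`-sets
  let ι := {Q : Finset (Fin n) // Q.card = r}
  have htrans : ∀ (p : Finset (Fin n) → Prop) [DecidablePred p],
      ∑ i : ι with p i.1, y i.1 = ∑ Q with p Q, y Q := by
    intro p _
    rw [Finset.sum_filter, Finset.sum_filter]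
    have h1 : ∑ Q : Finset (Fin n), (if p Q then y Q else 0) =
        ∑ Q ∈ (Finset.univ : Finset (Finset (Fin n))).filter (fun Q => Q.card = r),
          (if p Q then y Q else 0) := by
      rw [eq_comm]
      refine Finset.sum_subset (Finset.subset_univ _) (fun Q _ hQ => ?_)
      have : y Q = 0 := by
        by_contra h0
        exact hQ (Finset.mem_filter.mpr ⟨Finset.mem_univ _, (hyc Q h0).card_eq⟩)
      rw [this]; simp
    rw [h1]
    rw [eq_comm]
    exact Finset.sum_subtype _ (fun Q => by simp) _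
  obtain ⟨M, hM1, hM2, hM3⟩ := hnib (Sym2 (Fin n)) ι (fun i => E2 i.1) (fun i => y i.1)
    (fun i => by rw [card_E2, i.2]) (fun i => hy0 i.1)
    (fun e => (htrans (fun Q => e ∈ E2 Q)).le.trans (hyd e))
    (fun e e' hee' => by
      refine (htrans (fun Q => e ∈ E2 Q ∧ e' ∈ E2 Q)).le.trans ((hyco e e' hee').trans ?_)
      have hn2 : (0 : ℝ) < (n : ℝ) - 2 := by linarith
      rw [div_le_iff₀ hn2]
      have h1 : ((N : ℝ) - 2) / η < (n : ℝ) - 2 := by
        have : (n1 : ℝ) ≤ n := by exact_mod_cast hnn1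
        linarith
      rw [div_lt_iff₀ hη] at h1
      linarith)
  -- the family
  have hfam : EdgeDisjointCliques G r (M.map ⟨fun i : ι => i.1, Subtype.val_injective⟩) := by
    constructor
    · intro Q hQ
      rw [Finset.mem_map] at hQ
      obtain ⟨i, hi, rfl⟩ := hQ
      exact hyc i.1 (hM1 i hi)
    · intro Q hQ Q' hQ' hne u v hu hv hu' hv'
      rw [Finset.mem_map] at hQ hQ'
      obtain ⟨i, hi, rfl⟩ := hQ
      obtain ⟨j, hj, rfl⟩ := hQ'
      by_contra huv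
      have hij : i ≠ j := fun h => hne (by rw [h])
      have hd := hM2 i hi j hj hij
      rw [Finset.disjoint_left] at hd
      exact hd ((mem_E2 _ _ _).mpr ⟨hu, hv, huv⟩) ((mem_E2 _ _ _).mpr ⟨hu', hv', huv⟩)
  have hnu := card_le_nu G r _ hfam
  rw [Finset.card_map] at hnu
  have hnu' : (M.card : ℝ) ≤ nu G r := by exact_mod_cast hnu
  have hsum : ∑ i : ι, y i.1 = ∑ Q, y Q := by
    have := htrans (fun _ => True)
    simpa using this
  rw [hsum] at hM3
  -- cardinality of Sym2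
  have hcard : (Fintype.card (Sym2 (Fin n)) : ℝ) ≤ (n : ℝ) ^ 2 := by
    rw [Sym2.card, Fintype.card_fin, Nat.cast_choose_two]
    push_cast
    nlinarith
  have hδcard : δ / 2 * (Fintype.card (Sym2 (Fin n)) : ℝ) ≤ δ / 2 * (n : ℝ) ^ 2 :=
    mul_le_mul_of_nonneg_left hcard (by linarith)
  -- error from averaging
  have hN1 : (0 : ℝ) < (N : ℝ) - 1 := by linarith
  have hr1 : (0 : ℝ) < (r : ℝ) - 1 := by linarith
  have hfrac : ((N : ℝ) + 1) / ((N : ℝ) - 1) = 1 + 2 / ((N : ℝ) - 1) := by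
    field_simp
    ring
  have hcr : ((r : ℝ) - 2) / (2 * ((r : ℝ) - 1)) ≤ 1 / 2 := by
    rw [div_le_div_iff₀ (by linarith) (by norm_num)]
    linarith
  have hcr0 : 0 ≤ ((r : ℝ) - 2) / (2 * ((r : ℝ) - 1)) := div_nonneg (by linarith) (by linarith)
  have h2N : 2 / ((N : ℝ) - 1) ≤ δ := by
    rw [div_le_iff₀ hN1]
    have : 2 / δ < (N : ℝ) - 1 := by linarith
    rw [div_lt_iff₀ hδ] at this
    linarith
  have h2N0 : 0 ≤ 2 / ((N : ℝ) - 1) := by positivity
  have hnn : (n : ℝ) * ((n : ℝ) - 1) ≤ (n : ℝ) ^ 2 := by nlinarith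
  have hnn0 : 0 ≤ (n : ℝ) * ((n : ℝ) - 1) := mul_nonneg (by linarith) (by linarith)
  have herr : ((r : ℝ) - 2) / (2 * ((r : ℝ) - 1)) * (((N : ℝ) + 1) / ((N : ℝ) - 1) *
      ((n : ℝ) * ((n : ℝ) - 1))) ≤
      ((r : ℝ) - 2) / (2 * (r : ℝ) - 2) * (n : ℝ) ^ 2 + δ / 2 * (n : ℝ) ^ 2 := by
    have e1 : (2 * (r : ℝ) - 2) = 2 * ((r : ℝ) - 1) := by ring
    rw [hfrac, e1]
    set C := ((r : ℝ) - 2) / (2 * ((r : ℝ) - 1)) with hC
    have h1 : (1 + 2 / ((N : ℝ) - 1)) * ((n : ℝ) * ((n : ℝ) - 1)) ≤ (1 + δ) * (n : ℝ) ^ 2 :=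
      mul_le_mul (by linarith) hnn hnn0 (by linarith)
    have h2 : C * ((1 + 2 / ((N : ℝ) - 1)) * ((n : ℝ) * ((n : ℝ) - 1))) ≤
        C * ((1 + δ) * (n : ℝ) ^ 2) := mul_le_mul_of_nonneg_left h1 hcr0
    have h3 : C * (δ * (n : ℝ) ^ 2) ≤ 1 / 2 * (δ * (n : ℝ) ^ 2) :=
      mul_le_mul_of_nonneg_right hcr (by positivity)
    linarith
  have h2r : 2 / (r : ℝ) ≤ 1 := by
    rw [div_le_one (by linarith)]
    linarith
  have h2r0 : 0 ≤ 2 / (r : ℝ) := by positivity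
  have hfin : 2 / (r : ℝ) * ((G.edgeSet.ncard : ℝ) - ((r : ℝ) - 2) / (2 * (r : ℝ) - 2) * (n : ℝ) ^ 2) -
      δ / 2 * (n : ℝ) ^ 2 ≤ 2 / (r : ℝ) * ((G.edgeSet.ncard : ℝ) -
      ((r : ℝ) - 2) / (2 * ((r : ℝ) - 1)) * (((N : ℝ) + 1) / ((N : ℝ) - 1) *
      ((n : ℝ) * ((n : ℝ) - 1)))) := by
    have h1 := mul_le_mul_of_nonneg_left herr h2r0
    have h2 : 2 / (r : ℝ) * (δ / 2 * (n : ℝ) ^ 2) ≤ 1 * (δ / 2 * (n : ℝ) ^ 2) :=
      mul_le_mul_of_nonneg_right h2r (by positivity)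
    linarith
  linarith

/-- **Tuza's problem.** For every `r ≥ 3` there is a function `f : ℕ → ℝ` with
`f n / n ^ 2 → 0` such that every graph on `n` vertices with `(r-2)/(2r-2) n^2 + k` edges, `k ≥ 0`,
has at least `(2/r) k - f n` pairwise edge-disjoint copies of `K_r`. -/
theorem result : ∀ r : ℕ, 3 ≤ r → ∃ f : ℕ → ℝ,
    Tendsto (fun n : ℕ => f n / (n : ℝ) ^ 2) atTop (𝓝 0) ∧
    ∀ (n : ℕ) (G : SimpleGraph (Fin n)) (k : ℝ), 0 ≤ k →
      (G.edgeSet.ncard : ℝ) = ((r : ℝ) - 2) / (2 * (r : ℝ) - 2) * (n : ℝ) ^ 2 + k →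
      2 / (r : ℝ) * k - f n ≤ (nu G r : ℝ) := by
  intro r hr
  let dfc : (n : ℕ) → SimpleGraph (Fin n) → ℝ := fun n G =>
    max 0 (2 / (r : ℝ) * ((G.edgeSet.ncard : ℝ) -
      ((r : ℝ) - 2) / (2 * (r : ℝ) - 2) * (n : ℝ) ^ 2) - (nu G r : ℝ))
  let f : ℕ → ℝ := fun n => ⨆ G : SimpleGraph (Fin n), dfc n G
  have hbdd : ∀ n, BddAbove (Set.range (dfc n)) := fun n => Set.finite_range _ |>.bddAbove
  have hf0 : ∀ n, 0 ≤ f n := by
    intro n
    exact (le_max_left _ _).trans (le_ciSup (hbdd n) (⊥ : SimpleGraph (Fin n)))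
  refine ⟨f, ?_, ?_⟩
  · rw [Metric.tendsto_atTop]
    intro δ hδ
    obtain ⟨n0, hn0⟩ := asymp r hr (δ / 2) (by linarith)
    refine ⟨max n0 1, fun n hn => ?_⟩
    have hn0' : n0 ≤ n := (le_max_left _ _).trans hn
    have hn1 : 1 ≤ n := (le_max_right _ _).trans hn
    have hn1' : (1 : ℝ) ≤ n := by exact_mod_cast hn1
    have hnpos : (0 : ℝ) < (n : ℝ) ^ 2 := by positivity
    have hfle : f n ≤ δ / 2 * (n : ℝ) ^ 2 := by
      refine ciSup_le (fun G => ?_)
      refine max_le (by positivity) ?_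
      have := hn0 n hn0' G
      linarith
    rw [Real.dist_eq, sub_zero, abs_of_nonneg (div_nonneg (hf0 n) hnpos.le), div_lt_iff₀ hnpos]
    nlinarith
  · intro n G k _ hk
    have h1 : dfc n G ≤ f n := le_ciSup (hbdd n) G
    have h2 : 2 / (r : ℝ) * ((G.edgeSet.ncard : ℝ) -
      ((r : ℝ) - 2) / (2 * (r : ℝ) - 2) * (n : ℝ) ^ 2) - (nu G r : ℝ) ≤ dfc n G := le_max_right _ _
    rw [hk] at h2
    have h3 : ((r : ℝ) - 2) / (2 * (r : ℝ) - 2) * (n : ℝ) ^ 2 + k -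
      ((r : ℝ) - 2) / (2 * (r : ℝ) - 2) * (n : ℝ) ^ 2 = k := by ring
    rw [h3] at h2
    linarith

end Pool.Agent.Results.MP_657a0a_co.TuzaEdgeDisjointCliques
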